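import Pool.Agent.H43.G.R_seed8.Y820.LF.Stm
import Pool.Agent.H43.G.R_seed8.H373R2.T7.SysCount
import Pool.Agent.H43.G.R_seed8.H373R2.T7.SysMain2
import Pool.Agent.H43.G.R_seed8.H373R2.T7.TupleMain2

/-!
Project LF (helper820), job LF-M: main terms for sifted linear forms
-/

set_option autoImplicit false

namespace Pool.Agent.Y820.LF.M0

open Finset
open Pool.Agent.H373R2.T7
open Pool.Agent.Y820.LF

variable {k : ℕ} {C H : Fin k → ℤ}

/-- the conditions -/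
def QQ (C H : Fin k → ℤ) (p n : ℕ) : Prop := ∃ i, (p : ℤ) ∣ C i * (n : ℤ) + H i

theorem pos_of {N : ℕ} (h : PosF C H N) {n : ℕ} (hn : n ∈ Icc 1 N) (i : Fin k) :
    1 ≤ C i * (n : ℤ) + H i := by
  rw [mem_Icc] at hn
  obtain ⟨h1, h2⟩ := h i
  have h3 : (1 : ℤ) ≤ n := by exact_mod_cast hn.1
  have h4 : (n : ℤ) ≤ N := by exact_mod_cast hn.2
  rcases le_total 0 (C i) with h5 | h5
  · nlinarith [mul_nonneg h5 (sub_nonneg.2 h3)]
  · nlinarith [mul_nonneg (neg_nonneg.2 h5) (sub_nonneg.2 h4)]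

theorem lamzI_eq (z : ℕ) {m : ℤ} (hm : 1 ≤ m) :
    lamzI z m = if ∀ p ∈ pz z, ¬ (p : ℤ) ∣ m then (Vz z)⁻¹ else 0 := by
  unfold lamzI lamz
  rw [if_pos hm]
  have h1 : ((m.toNat : ℕ) : ℤ) = m := Int.toNat_of_nonneg (by omega)
  have h2 : (∀ p ∈ pz z, ¬ p ∣ m.toNat) ↔ ∀ p ∈ pz z, ¬ (p : ℤ) ∣ m := by
    refine forall₂_congr fun p _ => ?_
    rw [← Int.natCast_dvd_natCast, h1]
  simp only [h2]

open Classical in
theorem prod_eq {N : ℕ} (h : PosF C H N) (z : ℕ) {n : ℕ} (hn : n ∈ Icc 1 N) :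
    ∏ i, lamzI z (C i * (n : ℤ) + H i) =
      if ∀ p ∈ pz z, ¬ QQ C H p n then ((Vz z)⁻¹) ^ k else 0 := by
  by_cases h5 : ∀ p ∈ pz z, ¬ QQ C H p n
  · rw [if_pos h5]
    have h7 : ∀ i : Fin k, lamzI z (C i * (n : ℤ) + H i) = (Vz z)⁻¹ := fun i => by
      rw [lamzI_eq z (pos_of h hn i)]
      exact if_pos (fun p hp hd => h5 p hp ⟨i, hd⟩)
    rw [prod_congr rfl (fun i _ => h7 i), prod_const, card_univ, Fintype.card_fin]
  · rw [if_neg h5]
    push Not at h5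
    obtain ⟨p, hp, i, hi⟩ := h5
    refine prod_eq_zero (mem_univ i) ?_
    rw [lamzI_eq z (pos_of h hn i)]
    exact if_neg (fun h => h p hp hi)

theorem nuB_eq (p : ℕ) : nuB (QQ C H) p = nuF C H p := by
  unfold nuB nuF QQ
  congr!

theorem per_QQ (p n : ℕ) : QQ C H p n ↔ QQ C H p (n % p) := by
  unfold QQ
  refine exists_congr fun i => ?_
  have h1 : (p : ℤ) ∣ C i * ((n : ℤ) - ((n % p : ℕ) : ℤ)) := by
    refine Dvd.dvd.mul_left ?_ _
    rw [Int.natCast_mod]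
    exact Int.dvd_self_sub_emod
  have h2 : C i * (n : ℤ) + H i = C i * ((n : ℤ) - ((n % p : ℕ) : ℤ)) +
      (C i * ((n % p : ℕ) : ℤ) + H i) := by ring
  rw [h2]
  exact Int.dvd_add_right h1

theorem few_QQ (hA : AdmF C H) {p : ℕ} (hp : p.Prime) : nuB (QQ C H) p ≤ k := by
  classical
  unfold nuB
  have h1 : (range p).filter (fun r => QQ C H p r) ⊆
      univ.biUnion (fun i : Fin k => (range p).filter (fun r : ℕ => (p : ℤ) ∣ C i * (r : ℤ) + H i)) := by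
    intro r hr
    rw [mem_filter] at hr
    obtain ⟨hr1, i, hi⟩ := hr
    rw [mem_biUnion]
    exact ⟨i, mem_univ _, mem_filter.2 ⟨hr1, hi⟩⟩
  refine (card_le_card h1).trans (card_biUnion_le.trans ?_)
  calc ∑ i : Fin k, ((range p).filter (fun r : ℕ => (p : ℤ) ∣ C i * (r : ℤ) + H i)).card
      ≤ ∑ _i : Fin k, 1 := by
        refine sum_le_sum fun i _ => ?_
        rw [card_le_one]
        intro r hr r' hr'
        rw [mem_filter, mem_range] at hr hr'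
        have h2 : (p : ℤ) ∣ C i * ((r : ℤ) - r') := by
          have : C i * ((r : ℤ) - r') = (C i * (r : ℤ) + H i) - (C i * (r' : ℤ) + H i) := by ring
          rw [this]
          exact dvd_sub hr.2 hr'.2
        have hpp := Nat.prime_iff_prime_int.1 hp
        rcases hpp.dvd_or_dvd h2 with h3 | h3
        · exfalso
          have h4 : (p : ℤ) ∣ H i := (Int.dvd_add_right (Dvd.dvd.mul_right h3 (r : ℤ))).1 hr.2
          have h5 := hA p hp
          unfold nuF at h5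
          have h6 : (range p).filter (fun r : ℕ => ∃ i, (p : ℤ) ∣ C i * (r : ℤ) + H i) = range p := by
            apply filter_true_of_mem
            intro r _
            exact ⟨i, dvd_add (Dvd.dvd.mul_right h3 _) h4⟩
          rw [h6, card_range] at h5
          exact lt_irrefl _ h5
        · have h4 : (r : ℤ) ≡ (r' : ℤ) [ZMOD p] := by
            rw [Int.modEq_iff_dvd]
            have : (r' : ℤ) - r = -((r : ℤ) - r') := by ring
            rw [this]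
            exact h3.neg_right
          have h5 : r ≡ r' [MOD p] := (Int.natCast_modEq_iff).1 h4
          have h6 : r % p = r' % p := h5
          rwa [Nat.mod_eq_of_lt hr.1, Nat.mod_eq_of_lt hr'.1] at h6
    _ = k := by simp

theorem perB_QQ (hA : AdmF C H) : PerB (QQ C H) k := ⟨per_QQ, fun _ hp => few_QQ hA hp⟩

theorem sing_eq (z : ℕ) : singF C H z =
    ((Vz z)⁻¹) ^ k * ∏ p ∈ pz z, (1 - (nuB (QQ C H) p : ℝ) / p) := by
  unfold singF Vz pz
  rw [← prod_inv_distrib, ← prod_pow, ← prod_mul_distrib]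
  apply prod_congr rfl
  intro p _
  rw [nuB_eq, div_eq_mul_inv, inv_pow, mul_comm]

/-- LF-M0 -/
theorem t_main0 : S_main0 := by
  classical
  intro k E U hk
  obtain ⟨n1, h1⟩ := sys_count k E (U + k) hk
  obtain ⟨n2, h2⟩ := Vz_inv_small E
  obtain ⟨n3, h3⟩ := ev_L' 1
  refine ⟨max n1 (max n2 n3), fun N hN z hz hzE C H hP hA => ?_⟩
  have b1 := (le_max_left _ _).trans hN
  have b2 := ((le_max_left _ _).trans (le_max_right _ _)).trans hN
  have b3 := ((le_max_right _ _).trans (le_max_right _ _)).trans hN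
  have hV := h2 N b2 z hz hzE
  have hL := h3 N b3
  have hc := h1 N b1 z hz hzE (QQ C H) (perB_QQ hA)
  set L := Real.log N with hLd
  have hL0 : 0 < L := by linarith
  have hsum : ∑ n ∈ Icc 1 N, ∏ i, lamzI z (C i * (n : ℤ) + H i) =
      ((Vz z)⁻¹) ^ k * ((((Icc 1 N).filter (fun n : ℕ => ∀ p ∈ pz z, ¬ QQ C H p n)).card : ℕ) : ℝ) := by
    rw [sum_congr rfl (fun n hn => prod_eq hP z hn), ← sum_filter, sum_const, nsmul_eq_mul,
      mul_comm]
  have hVk : ((Vz z)⁻¹) ^ k ≤ L ^ k := pow_le_pow_left₀ (inv_pos.2 (Vz_pos z)).le hV k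
  have hV0 : 0 ≤ ((Vz z)⁻¹) ^ k := pow_nonneg (inv_pos.2 (Vz_pos z)).le k
  rw [hsum, sing_eq]
  have e : ((Vz z)⁻¹) ^ k * ((((Icc 1 N).filter (fun n : ℕ => ∀ p ∈ pz z, ¬ QQ C H p n)).card : ℕ) : ℝ) -
      ((Vz z)⁻¹) ^ k * (∏ p ∈ pz z, (1 - (nuB (QQ C H) p : ℝ) / p)) * N =
      ((Vz z)⁻¹) ^ k * (((((Icc 1 N).filter (fun n : ℕ => ∀ p ∈ pz z, ¬ QQ C H p n)).card : ℕ) : ℝ) -
      N * ∏ p ∈ pz z, (1 - (nuB (QQ C H) p : ℝ) / p)) := by ring
  rw [e, abs_mul, abs_of_nonneg hV0]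
  calc ((Vz z)⁻¹) ^ k * _ ≤ L ^ k * (N / L ^ (U + k)) :=
        mul_le_mul hVk hc (abs_nonneg _) (by positivity)
    _ = N / L ^ U := by
        rw [pow_add]
        field_simp

theorem cons_iff (p r : ℕ) :
    (∃ i : Fin (k + 1), (p : ℤ) ∣ (Fin.cons 1 C : Fin (k + 1) → ℤ) i * (r : ℤ) +
      (Fin.cons 0 H : Fin (k + 1) → ℤ) i) ↔ p ∣ r ∨ QQ C H p r := by
  rw [Fin.exists_fin_succ]
  simp only [Fin.cons_zero, Fin.cons_succ, one_mul, add_zero, Int.natCast_dvd_natCast]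
  exact Iff.rfl

theorem nuF_cons {p : ℕ} (hp : p.Prime) :
    nuF (Fin.cons 1 C : Fin (k + 1) → ℤ) (Fin.cons 0 H : Fin (k + 1) → ℤ) p =
      rhoA (QQ C H) p + 1 := by
  classical
  unfold nuF rhoA
  have h : (range p).filter (fun r : ℕ => ∃ i : Fin (k + 1), (p : ℤ) ∣
      (Fin.cons 1 C : Fin (k + 1) → ℤ) i * (r : ℤ) + (Fin.cons 0 H : Fin (k + 1) → ℤ) i) =
      insert 0 ((range p).filter (fun r => ¬ p ∣ r ∧ QQ C H p r)) := by
    ext r
    rw [mem_insert, mem_filter, mem_filter, mem_range, cons_iff]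
    constructor
    · rintro ⟨h1, h2⟩
      by_cases h3 : p ∣ r
      · left
        exact Nat.eq_zero_of_dvd_of_lt h3 h1
      · right
        exact ⟨h1, h3, h2.resolve_left h3⟩
    · rintro (h1 | ⟨h1, h2, h3⟩)
      · rw [h1]
        exact ⟨hp.pos, Or.inl (dvd_zero _)⟩
      · exact ⟨h1, Or.inr h3⟩
  rw [h, card_insert_of_notMem]
  rw [mem_filter]
  rintro ⟨_, h1, _⟩
  exact h1 (dvd_zero _)

theorem adm_of (hA : AdmF (Fin.cons 1 C : Fin (k + 1) → ℤ) (Fin.cons 0 H : Fin (k + 1) → ℤ)) :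
    AdmF C H := by
  classical
  intro p hp
  refine lt_of_le_of_lt ?_ (hA p hp)
  unfold nuF
  apply card_le_card
  intro r hr
  rw [mem_filter] at hr ⊢
  exact ⟨hr.1, (cons_iff p r).2 (Or.inr hr.2)⟩

theorem sing_eq1 (z : ℕ) :
    singF (Fin.cons 1 C : Fin (k + 1) → ℤ) (Fin.cons 0 H : Fin (k + 1) → ℤ) z =
      ((Vz z)⁻¹) ^ k * ∏ p ∈ pz z, (1 - (rhoA (QQ C H) p : ℝ) / (p - 1 : ℝ)) := by
  unfold singF Vz pz
  rw [← prod_inv_distrib, ← prod_pow, ← prod_mul_distrib]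
  apply prod_congr rfl
  intro p hp
  have hpp := (mem_filter.1 hp).2
  have hp2 : (2 : ℝ) ≤ p := by exact_mod_cast hpp.two_le
  rw [nuF_cons hpp]
  push_cast
  have h1 : (1 : ℝ) - 1 / p = (p - 1) / p := by field_simp
  have h2 : (p : ℝ) - 1 ≠ 0 := by
    have : (0 : ℝ) < p - 1 := by linarith
    exact this.ne'
  have h3 : (p : ℝ) ≠ 0 := by positivity
  rw [h1, div_pow, inv_div, div_pow, pow_succ, pow_succ]
  field_simp
  ring

/-- LF-M1 -/
theorem t_main1 : S_main1 := by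
  classical
  intro k E U hk
  obtain ⟨n1, h1⟩ := sys_main k E (U + k) hk
  obtain ⟨n2, h2⟩ := Vz_inv_small E
  obtain ⟨n3, h3⟩ := ev_L' 1
  refine ⟨max n1 (max n2 n3), fun N hN z hz hzE C H hP hA => ?_⟩
  have b1 := (le_max_left _ _).trans hN
  have b2 := ((le_max_left _ _).trans (le_max_right _ _)).trans hN
  have b3 := ((le_max_right _ _).trans (le_max_right _ _)).trans hN
  have hV := h2 N b2 z hz hzE
  have hL := h3 N b3
  have hc := h1 N b1 z hz hzE (QQ C H) (perB_QQ (adm_of hA)).toA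
  set L := Real.log N with hLd
  have hL0 : 0 < L := by linarith
  have hsum : ∑ n ∈ Icc 1 N, ArithmeticFunction.vonMangoldt n *
      ∏ i, lamzI z (C i * (n : ℤ) + H i) = ((Vz z)⁻¹) ^ k *
      ∑ n ∈ (Icc 1 N).filter (fun n : ℕ => ∀ p ∈ pz z, ¬ QQ C H p n),
        ArithmeticFunction.vonMangoldt n := by
    rw [sum_filter, mul_sum]
    refine sum_congr rfl fun n hn => ?_
    rw [prod_eq hP z hn]
    split_ifs
    · rw [mul_comm]
    · rw [mul_zero, mul_zero]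
  have hVk : ((Vz z)⁻¹) ^ k ≤ L ^ k := pow_le_pow_left₀ (inv_pos.2 (Vz_pos z)).le hV k
  have hV0 : 0 ≤ ((Vz z)⁻¹) ^ k := pow_nonneg (inv_pos.2 (Vz_pos z)).le k
  rw [hsum, sing_eq1]
  have e : ((Vz z)⁻¹) ^ k * (∑ n ∈ (Icc 1 N).filter (fun n : ℕ => ∀ p ∈ pz z, ¬ QQ C H p n),
        ArithmeticFunction.vonMangoldt n) -
      ((Vz z)⁻¹) ^ k * (∏ p ∈ pz z, (1 - (rhoA (QQ C H) p : ℝ) / (p - 1 : ℝ))) * N =
      ((Vz z)⁻¹) ^ k * ((∑ n ∈ (Icc 1 N).filter (fun n : ℕ => ∀ p ∈ pz z, ¬ QQ C H p n),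
        ArithmeticFunction.vonMangoldt n) -
      N * ∏ p ∈ pz z, (1 - (rhoA (QQ C H) p : ℝ) / (p - 1 : ℝ))) := by ring
  rw [e, abs_mul, abs_of_nonneg hV0]
  calc ((Vz z)⁻¹) ^ k * _ ≤ L ^ k * (N / L ^ (U + k)) :=
        mul_le_mul hVk hc (abs_nonneg _) (by positivity)
    _ = N / L ^ U := by
        rw [pow_add]
        field_simp

end Pool.Agent.Y820.LF.M0

namespace Pool.Agent.Y820.LF

theorem t_main0 : S_main0 := M0.t_main0

theorem t_main1 : S_main1 := M0.t_main1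

end Pool.Agent.Y820.LF
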